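import Pool.Agent.TH89.LS_F
import Pool.Agent.TH807.LS_CL

set_option autoImplicit false

/-!
# Hardy's inequality in several variables
-/

namespace Pool.Agent.T9h44.LS2

open MeasureTheory Set
open scoped ENNReal
open Pool.Agent.TH280.LS Pool.Agent.TH89.F Pool.Agent.TH807.CL

/-- the kernel `min (1, 1 / |y η|)` -/
noncomputable def Kr (y η : ℝ) : ℝ≥0∞ := min 1 (ENNReal.ofReal (|y| * |η|))⁻¹

lemma Kr_symm (y η : ℝ) : Kr y η = Kr η y := by
  unfold Kr
  rw [mul_comm]

lemma Kr_le_one (y η : ℝ) : Kr y η ≤ 1 := min_le_left _ _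

@[fun_prop]
lemma measurable_Kr : Measurable (Function.uncurry Kr) := by
  unfold Kr Function.uncurry
  fun_prop

lemma measurable_Kr' (η : ℝ) : Measurable (fun y => Kr y η) := by
  unfold Kr
  fun_prop

lemma lint_tail (c V : ℝ) (hc : c < -1) (hV : 0 < V) :
    ∫⁻ s in {s : ℝ | V ≤ |s|}, ENNReal.ofReal (|s| ^ c) ≤
      ENNReal.ofReal (2 * (V ^ (c + 1) / (-(c + 1)))) := by
  have hI : ∫⁻ s in Ioi V, ENNReal.ofReal (s ^ c) = ENNReal.ofReal (V ^ (c + 1) / (-(c + 1))) := by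
    have h1 := integrableOn_Ioi_rpow_of_lt hc hV
    have h2 := integral_Ioi_rpow_of_lt hc hV
    rw [← ofReal_integral_eq_lintegral_ofReal h1, h2]
    · congr 1
      rw [div_neg, neg_div]
    · exact (ae_restrict_iff' measurableSet_Ioi).2 (Filter.Eventually.of_forall fun s hs =>
        Real.rpow_nonneg (hV.le.trans (le_of_lt hs)) _)
  set f : ℝ → ℝ≥0∞ := (Ioi V).indicator fun s => ENNReal.ofReal (s ^ c) with hf
  have hfm : Measurable f := by
    have : Measurable fun s : ℝ => ENNReal.ofReal (s ^ c) := by fun_prop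
    exact this.indicator measurableSet_Ioi
  have h1 : ∫⁻ s, f s = ENNReal.ofReal (V ^ (c + 1) / (-(c + 1))) := by
    rw [lintegral_indicator measurableSet_Ioi, hI]
  have h2 : ∫⁻ s, f (-s) = ENNReal.ofReal (V ^ (c + 1) / (-(c + 1))) := by
    rw [← h1]
    exact (Measure.measurePreserving_neg (volume : Measure ℝ)).lintegral_comp hfm
  have hc1 : 0 ≤ V ^ (c + 1) / (-(c + 1)) := div_nonneg (Real.rpow_nonneg hV.le _) (by linarith)
  have hm : MeasurableSet {s : ℝ | V ≤ |s|} := measurableSet_le measurable_const (by fun_prop)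
  have h0 : ∀ᵐ x : ℝ, x ≠ V ∧ x ≠ -V := by
    rw [ae_iff]
    refine measure_mono_null (t := {V, -V}) ?_ ?_
    · intro x hx
      simp only [Set.mem_ofPred_eq, not_and_or, not_not] at hx
      exact hx
    · exact (Set.toFinite _).measure_zero _
  rw [← lintegral_indicator hm]
  calc ∫⁻ s, ({s : ℝ | V ≤ |s|}).indicator (fun s => ENNReal.ofReal (|s| ^ c)) s
      ≤ ∫⁻ s, (f s + f (-s)) := by
        refine lintegral_mono_ae ?_
        filter_upwards [h0] with s hs
        by_cases h3 : s ∈ {s : ℝ | V ≤ |s|}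
        · rw [indicator_of_mem h3]
          rcases le_or_gt 0 s with h4 | h4
          · have h5 : s ∈ Ioi V := by
              have h6 : V ≤ |s| := h3
              rw [abs_of_nonneg h4] at h6
              exact lt_of_le_of_ne h6 hs.1.symm
            have : f s = ENNReal.ofReal (|s| ^ c) := by
              rw [hf, indicator_of_mem h5, abs_of_nonneg h4]
            rw [this]
            exact le_self_add
          · have h5 : -s ∈ Ioi V := by
              have h6 : V ≤ |s| := h3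
              rw [abs_of_neg h4] at h6
              refine lt_of_le_of_ne h6 fun h7 => hs.2 (by linarith)
            have : f (-s) = ENNReal.ofReal (|s| ^ c) := by
              rw [hf, indicator_of_mem h5, abs_of_neg h4]
            rw [this]
            exact le_add_self
        · rw [indicator_of_notMem h3]
          exact zero_le
    _ = ENNReal.ofReal (2 * (V ^ (c + 1) / (-(c + 1)))) := by
        rw [lintegral_add_left hfm, h1, h2, ← ENNReal.ofReal_add hc1 hc1, two_mul]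

/-- `∫ min (1, 1 / |y η|) |y| ^ (-α) dy = C |η| ^ (α - 1)` -/
lemma lint_Kr (α : ℝ) (h0 : 0 < α) (h1 : α < 1) (η : ℝ) (hη : η ≠ 0) :
    ∫⁻ y, Kr y η * ENNReal.ofReal (|y| ^ (-α)) ≤
      ENNReal.ofReal ((2 / (1 - α) + 2 / α) * |η| ^ (α - 1)) := by
  have hη0 : 0 < |η| := abs_pos.2 hη
  set V : ℝ := 1 / |η| with hV
  have hV0 : 0 < V := by positivity
  have hm : MeasurableSet (Ioo (-V) V) := measurableSet_Ioo
  have hbase : V ^ (-α + 1) = |η| ^ (α - 1) := by
    rw [hV, one_div, Real.inv_rpow hη0.le, ← Real.rpow_neg hη0.le]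
    congr 1
    ring
  rw [← lintegral_add_compl _ hm]
  have hc : (Ioo (-V) V)ᶜ = {s : ℝ | V ≤ |s|} := by
    ext s
    rw [mem_compl_iff, mem_Ioo, ← abs_lt]
    simp only [Set.mem_ofPred_eq, not_lt]
  have e1 : ∫⁻ y in Ioo (-V) V, Kr y η * ENNReal.ofReal (|y| ^ (-α)) ≤
      ENNReal.ofReal (2 * (V ^ (-α + 1) / (-α + 1))) := by
    refine le_trans (lintegral_mono fun y => ?_) (lint_abs_pow (-α) V (by linarith) hV0.le)
    exact mul_le_of_le_one_left' (Kr_le_one _ _)
  have e2 : ∫⁻ y in (Ioo (-V) V)ᶜ, Kr y η * ENNReal.ofReal (|y| ^ (-α)) ≤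
      ENNReal.ofReal (1 / |η|) * ENNReal.ofReal (2 * (V ^ (-α - 1 + 1) / (-(-α - 1 + 1)))) := by
    rw [hc]
    refine le_trans (b := ∫⁻ y in {s : ℝ | V ≤ |s|}, ENNReal.ofReal (1 / |η|) *
      ENNReal.ofReal (|y| ^ (-α - 1))) ?_ ?_
    · refine setLIntegral_mono' (measurableSet_le measurable_const (by fun_prop)) fun y hy => ?_
      have hy' : V ≤ |y| := hy
      have hy0 : 0 < |y| := hV0.trans_le hy'
      have h2 : Kr y η ≤ ENNReal.ofReal (1 / (|y| * |η|)) := by
        unfold Kr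
        refine (min_le_right _ _).trans ?_
        rw [one_div, ENNReal.ofReal_inv_of_pos (by positivity)]
      refine (mul_le_mul_left h2 _).trans (le_of_eq ?_)
      rw [← ENNReal.ofReal_mul (by positivity), ← ENNReal.ofReal_mul (by positivity)]
      congr 1
      rw [Real.rpow_sub_one hy0.ne']
      field_simp
    · rw [lintegral_const_mul' _ _ ENNReal.ofReal_ne_top]
      exact mul_le_mul_right (lint_tail (-α - 1) V (by linarith) hV0) _
  refine (add_le_add e1 e2).trans (le_of_eq ?_)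
  rw [← ENNReal.ofReal_mul (by positivity), ← ENNReal.ofReal_add]
  · congr 1
    have e3 : V ^ (-α - 1 + 1) = |η| ^ α := by
      rw [hV, one_div, Real.inv_rpow hη0.le, ← Real.rpow_neg hη0.le]
      congr 1
      ring
    rw [hbase, e3]
    have e4 : |η| ^ α = |η| ^ (α - 1) * |η| := by
      rw [← Real.rpow_add_one hη0.ne']
      congr 1
      ring
    rw [e4]
    have h2 : (1 - α) ≠ 0 := by linarith
    have h3 : (-α + 1) ≠ 0 := by linarith
    have h4 : α ≠ 0 := h0.ne'
    have h5 : -(-α - 1 + 1) = α := by ring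
    rw [h5]
    have h6 : -α + 1 = 1 - α := by ring
    rw [h6]
    field_simp
  · have : 0 < -α + 1 := by linarith
    positivity
  · have : 0 < -(-α - 1 + 1) := by linarith
    positivity

lemma ae_ne (m : ℕ) : ∀ᵐ η : Fin m → ℝ, ∀ i, η i ≠ 0 := by
  rw [ae_all_iff]
  intro i
  have h : ∀ᵐ x : ℝ, x ≠ 0 := by
    rw [ae_iff]
    simp
  exact (Measure.quasiMeasurePreserving_eval (fun _ : Fin m => (volume : Measure ℝ)) i).ae h

lemma measurable_prod_Kr (m : ℕ) : Measurable
    (fun q : (Fin m → ℝ) × (Fin m → ℝ) => ∏ i, Kr (q.1 i) (q.2 i)) := by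
  refine Finset.measurable_fun_prod _ fun i _ => ?_
  exact measurable_Kr.comp (f := fun q : (Fin m → ℝ) × (Fin m → ℝ) => (q.1 i, q.2 i)) (by fun_prop)

/-- Hardy's inequality in several variables. -/
theorem hardy_m (m : ℕ) (p : ℝ) (hp : 2 ≤ p) : ∃ C : ℝ, 0 < C ∧
    ∀ V : (Fin m → ℝ) → ℝ≥0∞, AEMeasurable V →
    ∫⁻ η : Fin m → ℝ, ENNReal.ofReal ((∏ i, |η i|) ^ (p - 2)) *
      (∫⁻ y : Fin m → ℝ, (∏ i, Kr (y i) (η i)) * V y) ^ p ≤
      ENNReal.ofReal C * ∫⁻ y : Fin m → ℝ, V y ^ p := by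
  have hp0 : 0 < p := by linarith
  have hp1 : 0 < p - 1 := by linarith
  obtain ⟨q, hq⟩ : ∃ q, q = p / (p - 1) := ⟨_, rfl⟩
  have hq0 : 0 < q := by rw [hq]; positivity
  have hpq : p.HolderConjugate q := by
    rw [hq]
    exact Real.HolderConjugate.conjExponent (by linarith)
  obtain ⟨a, ha⟩ : ∃ a, a = 1 / (2 * p) := ⟨_, rfl⟩
  have ha0 : 0 < a := by rw [ha]; positivity
  have hap : a * p = 1 / 2 := by
    rw [ha]
    field_simp
  obtain ⟨α, hα⟩ : ∃ α, α = a * q := ⟨_, rfl⟩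
  have hα' : α * (p - 1) = 1 / 2 := by
    rw [hα, hq, ← hap]
    field_simp
  have hα0 : 0 < α := by rw [hα]; positivity
  have hα1 : α < 1 := by nlinarith
  obtain ⟨c1, hc1⟩ : ∃ c1, c1 = 2 / (1 - α) + 2 / α := ⟨_, rfl⟩
  have hc10 : 0 < c1 := by
    rw [hc1]
    have : 0 < 1 - α := by linarith
    positivity
  refine ⟨(c1 ^ (p - 1)) ^ m * 8 ^ m, by positivity, ?_⟩
  -- the measurable case suffices
  suffices main : ∀ V : (Fin m → ℝ) → ℝ≥0∞, Measurable V →
      ∫⁻ η : Fin m → ℝ, ENNReal.ofReal ((∏ i, |η i|) ^ (p - 2)) *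
        (∫⁻ y : Fin m → ℝ, (∏ i, Kr (y i) (η i)) * V y) ^ p ≤
        ENNReal.ofReal ((c1 ^ (p - 1)) ^ m * 8 ^ m) * ∫⁻ y : Fin m → ℝ, V y ^ p by
    intro V hV
    have h1 : ∀ η : Fin m → ℝ, ∫⁻ y : Fin m → ℝ, (∏ i, Kr (y i) (η i)) * V y =
        ∫⁻ y : Fin m → ℝ, (∏ i, Kr (y i) (η i)) * hV.mk V y := by
      intro η
      refine lintegral_congr_ae ?_
      filter_upwards [hV.ae_eq_mk] with y hy
      rw [hy]
    have h2 : ∫⁻ y : Fin m → ℝ, V y ^ p = ∫⁻ y : Fin m → ℝ, hV.mk V y ^ p := by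
      refine lintegral_congr_ae ?_
      filter_upwards [hV.ae_eq_mk] with y hy
      rw [hy]
    simp only [h1]
    rw [h2]
    exact main _ hV.measurable_mk
  intro V hV
  have hKm : ∀ η : Fin m → ℝ, Measurable (fun y : Fin m → ℝ => ∏ i, Kr (y i) (η i)) := by
    intro η
    exact Finset.measurable_fun_prod _ fun i _ =>
      (measurable_Kr' (η i)).comp (measurable_pi_apply i)
  have hPm : ∀ t : ℝ, Measurable (fun y : Fin m → ℝ => ∏ i, ENNReal.ofReal (|y i| ^ t)) := by
    intro t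
    refine Finset.measurable_fun_prod _ fun i _ => ?_
    have : Measurable fun s : ℝ => ENNReal.ofReal (|s| ^ t) := by fun_prop
    exact this.comp (measurable_pi_apply i)
  have hone : ∀ t : ℝ, Measurable fun s : ℝ => ENNReal.ofReal (|s| ^ t) := by
    intro t
    fun_prop
  -- the inner integral
  have inner : ∀ᵐ η : Fin m → ℝ, ENNReal.ofReal ((∏ i, |η i|) ^ (p - 2)) *
      (∫⁻ y : Fin m → ℝ, (∏ i, Kr (y i) (η i)) * V y) ^ p ≤
      ENNReal.ofReal ((c1 ^ (p - 1)) ^ m) * ((∏ i, ENNReal.ofReal (|η i| ^ (-(1 / 2) : ℝ))) *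
        ∫⁻ y : Fin m → ℝ, (∏ i, Kr (y i) (η i)) * ((∏ i, ENNReal.ofReal (|y i| ^ (1 / 2 : ℝ))) *
          V y ^ p)) := by
    filter_upwards [ae_ne m] with η hη
    -- Hölder
    have hol := ENNReal.lintegral_mul_le_Lp_mul_Lq volume hpq.symm
      (f := fun y : Fin m → ℝ => (∏ i, Kr (y i) (η i)) ^ (1 / q) *
        ∏ i, ENNReal.ofReal (|y i| ^ (-a)))
      (g := fun y : Fin m → ℝ => (∏ i, Kr (y i) (η i)) ^ (1 / p) *
        ((∏ i, ENNReal.ofReal (|y i| ^ a)) * V y))
      (((hKm η).pow_const _).mul (hPm _)).aemeasurable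
      (((hKm η).pow_const _).mul ((hPm _).mul hV)).aemeasurable
    have e0 : ∫⁻ y : Fin m → ℝ, (∏ i, Kr (y i) (η i)) * V y =
        ∫⁻ y : Fin m → ℝ, ((fun y : Fin m → ℝ => (∏ i, Kr (y i) (η i)) ^ (1 / q) *
        ∏ i, ENNReal.ofReal (|y i| ^ (-a))) * (fun y : Fin m → ℝ =>
        (∏ i, Kr (y i) (η i)) ^ (1 / p) * ((∏ i, ENNReal.ofReal (|y i| ^ a)) * V y))) y := by
      refine lintegral_congr_ae ?_
      filter_upwards [ae_ne m] with y hy
      simp only [Pi.mul_apply]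
      have h1 : (∏ i, Kr (y i) (η i)) ^ (1 / q) * (∏ i, Kr (y i) (η i)) ^ (1 / p) =
          ∏ i, Kr (y i) (η i) := by
        rw [← ENNReal.rpow_add_of_nonneg _ _ (by positivity) (by positivity)]
        have : 1 / q + 1 / p = 1 := by
          have := hpq.symm.inv_add_inv_eq_one
          rwa [← one_div, ← one_div] at this
        rw [this, ENNReal.rpow_one]
      have h2 : (∏ i, ENNReal.ofReal (|y i| ^ (-a))) * (∏ i, ENNReal.ofReal (|y i| ^ a)) = 1 := by
        rw [← Finset.prod_mul_distrib]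
        refine Finset.prod_eq_one fun i _ => ?_
        have hyi : 0 < |y i| := abs_pos.2 (hy i)
        rw [← ENNReal.ofReal_mul (by positivity), ← Real.rpow_add hyi, neg_add_cancel,
          Real.rpow_zero, ENNReal.ofReal_one]
      calc (∏ i, Kr (y i) (η i)) * V y
          = ((∏ i, Kr (y i) (η i)) ^ (1 / q) * (∏ i, Kr (y i) (η i)) ^ (1 / p)) *
            (((∏ i, ENNReal.ofReal (|y i| ^ (-a))) * (∏ i, ENNReal.ofReal (|y i| ^ a))) * V y) := by
            rw [h1, h2, one_mul]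
        _ = _ := by ring
    rw [← e0] at hol
    have eA : ∫⁻ y : Fin m → ℝ, ((∏ i, Kr (y i) (η i)) ^ (1 / q) *
        ∏ i, ENNReal.ofReal (|y i| ^ (-a))) ^ q ≤ ∏ i, ENNReal.ofReal (c1 * |η i| ^ (α - 1)) := by
      have h1 : ∀ y : Fin m → ℝ, ((∏ i, Kr (y i) (η i)) ^ (1 / q) *
          ∏ i, ENNReal.ofReal (|y i| ^ (-a))) ^ q =
          ∏ i, (Kr (y i) (η i) * ENNReal.ofReal (|y i| ^ (-α))) := by
        intro y
        rw [ENNReal.mul_rpow_of_nonneg _ _ hq0.le, ← ENNReal.rpow_mul, one_div_mul_cancel hq0.ne',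
          ENNReal.rpow_one, ← ENNReal.prod_rpow_of_nonneg hq0.le, ← Finset.prod_mul_distrib]
        refine Finset.prod_congr rfl fun i _ => ?_
        rw [ENNReal.ofReal_rpow_of_nonneg (by positivity) hq0.le, ← Real.rpow_mul (abs_nonneg _),
          hα, neg_mul]
      simp only [h1]
      rw [lint_prod (fun i x => Kr x (η i) * ENNReal.ofReal (|x| ^ (-α)))
        fun i => ((measurable_Kr' _).mul (hone _)).aemeasurable]
      refine Finset.prod_le_prod' fun i _ => ?_
      rw [hc1]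
      exact lint_Kr α hα0 hα1 (η i) (hη i)
    have eB : ∫⁻ y : Fin m → ℝ, ((∏ i, Kr (y i) (η i)) ^ (1 / p) *
        ((∏ i, ENNReal.ofReal (|y i| ^ a)) * V y)) ^ p = ∫⁻ y : Fin m → ℝ,
        (∏ i, Kr (y i) (η i)) * ((∏ i, ENNReal.ofReal (|y i| ^ (1 / 2 : ℝ))) * V y ^ p) := by
      refine lintegral_congr fun y => ?_
      rw [ENNReal.mul_rpow_of_nonneg _ _ hp0.le, ← ENNReal.rpow_mul, one_div_mul_cancel hp0.ne',
        ENNReal.rpow_one, ENNReal.mul_rpow_of_nonneg _ _ hp0.le, ← ENNReal.prod_rpow_of_nonneg hp0.le]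
      congr 2
      refine Finset.prod_congr rfl fun i _ => ?_
      rw [ENNReal.ofReal_rpow_of_nonneg (by positivity) hp0.le, ← Real.rpow_mul (abs_nonneg _), hap]
    have hfin := ENNReal.rpow_le_rpow hol hp0.le
    rw [ENNReal.mul_rpow_of_nonneg _ _ hp0.le, ← ENNReal.rpow_mul, ← ENNReal.rpow_mul,
      one_div_mul_cancel hp0.ne', ENNReal.rpow_one, eB] at hfin
    have e3 : 1 / q * p = p - 1 := by
      rw [hq]
      field_simp
    rw [e3] at hfin
    refine (mul_le_mul_right (hfin.trans (mul_le_mul_left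
      (ENNReal.rpow_le_rpow eA hp1.le) _)) _).trans (le_of_eq ?_)
    rw [← mul_assoc, ← mul_assoc]
    congr 1
    rw [← Real.finsetProd_rpow _ _ (fun i _ => abs_nonneg _),
      ENNReal.ofReal_prod_of_nonneg (fun i _ => by positivity), ← ENNReal.prod_rpow_of_nonneg hp1.le,
      ← Finset.prod_mul_distrib]
    have e4 : ENNReal.ofReal ((c1 ^ (p - 1)) ^ m) =
        ∏ _i : Fin m, ENNReal.ofReal (c1 ^ (p - 1)) := by
      rw [Finset.prod_const, Finset.card_univ, Fintype.card_fin, ENNReal.ofReal_pow (by positivity)]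
    rw [e4, ← Finset.prod_mul_distrib]
    refine Finset.prod_congr rfl fun i _ => ?_
    have hηi : 0 < |η i| := abs_pos.2 (hη i)
    rw [ENNReal.ofReal_rpow_of_nonneg (by positivity) hp1.le, ← ENNReal.ofReal_mul (by positivity),
      ← ENNReal.ofReal_mul (by positivity)]
    congr 1
    rw [Real.mul_rpow hc10.le (by positivity), ← Real.rpow_mul hηi.le]
    have e5 : |η i| ^ (p - 2) * (c1 ^ (p - 1) * |η i| ^ ((α - 1) * (p - 1))) =
        c1 ^ (p - 1) * (|η i| ^ (p - 2) * |η i| ^ ((α - 1) * (p - 1))) := by ring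
    rw [e5, ← Real.rpow_add hηi]
    congr 2
    nlinarith
  refine (lintegral_mono_ae inner).trans ?_
  rw [lintegral_const_mul' _ _ ENNReal.ofReal_ne_top, ENNReal.ofReal_mul (by positivity), mul_assoc]
  refine mul_le_mul_right ?_ _
  -- Tonelli
  have hjm : Measurable (fun z : (Fin m → ℝ) × (Fin m → ℝ) =>
      (∏ i, ENNReal.ofReal (|z.1 i| ^ (-(1 / 2) : ℝ))) * ((∏ i, Kr (z.2 i) (z.1 i)) *
        ((∏ i, ENNReal.ofReal (|z.2 i| ^ (1 / 2 : ℝ))) * V z.2 ^ p))) := by
    refine ((hPm _).comp measurable_fst).mul ?_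
    refine Measurable.mul ((measurable_prod_Kr m).comp (f := fun z : (Fin m → ℝ) × (Fin m → ℝ) =>
      (z.2, z.1)) (by fun_prop)) ?_
    exact ((hPm _).comp measurable_snd).mul ((hV.comp measurable_snd).pow_const _)
  calc ∫⁻ η : Fin m → ℝ, (∏ i, ENNReal.ofReal (|η i| ^ (-(1 / 2) : ℝ))) *
        ∫⁻ y : Fin m → ℝ, (∏ i, Kr (y i) (η i)) *
          ((∏ i, ENNReal.ofReal (|y i| ^ (1 / 2 : ℝ))) * V y ^ p)
      = ∫⁻ η : Fin m → ℝ, ∫⁻ y : Fin m → ℝ, (∏ i, ENNReal.ofReal (|η i| ^ (-(1 / 2) : ℝ))) *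
          ((∏ i, Kr (y i) (η i)) * ((∏ i, ENNReal.ofReal (|y i| ^ (1 / 2 : ℝ))) * V y ^ p)) := by
        refine lintegral_congr fun η => ?_
        rw [lintegral_const_mul]
        exact (hKm η).mul ((hPm _).mul (hV.pow_const _))
    _ = ∫⁻ y : Fin m → ℝ, ∫⁻ η : Fin m → ℝ, (∏ i, ENNReal.ofReal (|η i| ^ (-(1 / 2) : ℝ))) *
          ((∏ i, Kr (y i) (η i)) * ((∏ i, ENNReal.ofReal (|y i| ^ (1 / 2 : ℝ))) * V y ^ p)) :=
        lintegral_lintegral_swap hjm.aemeasurable
    _ ≤ ∫⁻ y : Fin m → ℝ, ENNReal.ofReal (8 ^ m) * V y ^ p := by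
        refine lintegral_mono_ae ?_
        filter_upwards [ae_ne m] with y hy
        have h1 : ∀ η : Fin m → ℝ, (∏ i, ENNReal.ofReal (|η i| ^ (-(1 / 2) : ℝ))) *
            ((∏ i, Kr (y i) (η i)) * ((∏ i, ENNReal.ofReal (|y i| ^ (1 / 2 : ℝ))) * V y ^ p)) =
            (∏ i, (Kr (η i) (y i) * ENNReal.ofReal (|η i| ^ (-(1 / 2) : ℝ)))) *
              ((∏ i, ENNReal.ofReal (|y i| ^ (1 / 2 : ℝ))) * V y ^ p) := by
          intro η
          rw [Finset.prod_mul_distrib]
          have : ∏ i, Kr (η i) (y i) = ∏ i, Kr (y i) (η i) :=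
            Finset.prod_congr rfl fun i _ => Kr_symm _ _
          rw [this]
          ring
        simp only [h1]
        have hmm : Measurable (fun η : Fin m → ℝ =>
            ∏ i, (Kr (η i) (y i) * ENNReal.ofReal (|η i| ^ (-(1 / 2) : ℝ)))) := by
          refine Finset.measurable_fun_prod _ fun i _ => ?_
          have h5 : Measurable fun s : ℝ => Kr s (y i) * ENNReal.ofReal (|s| ^ (-(1 / 2) : ℝ)) :=
            (measurable_Kr' (y i)).mul (hone _)
          exact h5.comp (measurable_pi_apply i)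
        rw [lintegral_mul_const _ hmm, lint_prod (fun i x => Kr x (y i) * ENNReal.ofReal (|x| ^ (-(1 / 2) : ℝ)))
            fun i => ((measurable_Kr' _).mul (hone _)).aemeasurable, ← mul_assoc]
        refine mul_le_mul_left ?_ _
        rw [← Finset.prod_mul_distrib]
        have h2 : ENNReal.ofReal (8 ^ m) = ∏ _i : Fin m, ENNReal.ofReal 8 := by
          rw [Finset.prod_const, Finset.card_univ, Fintype.card_fin,
            ENNReal.ofReal_pow (by norm_num)]
        rw [h2]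
        refine Finset.prod_le_prod' fun i _ => ?_
        have hyi : 0 < |y i| := abs_pos.2 (hy i)
        refine (mul_le_mul_left (lint_Kr (1 / 2) (by norm_num) (by norm_num) (y i) (hy i))
          _).trans (le_of_eq ?_)
        rw [← ENNReal.ofReal_mul (by positivity)]
        congr 1
        rw [mul_assoc, ← Real.rpow_add hyi]
        norm_num
    _ = _ := lintegral_const_mul' _ _ ENNReal.ofReal_ne_top

end Pool.Agent.T9h44.LS2
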