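import Pool.Agent.T9h44.LS2.H1
import Pool.Agent.TH280.LS.K3

set_option autoImplicit false

/-!
# The partial Fourier transform of the slices of a Schwartz function
-/

namespace Pool.Agent.T9h44.LS2

open MeasureTheory Set LineDeriv
open scoped ENNReal SchwartzMap RealInnerProductSpace
open Pool.Agent.TH280.LS Pool.Agent.TH89.F Pool.Agent.TH807.CL

/-- `∫_0^y e(-t η) dt` -/
noncomputable def kap (y η : ℝ) : ℂ := ∫ t in (0 : ℝ)..y, e (-(t * η))

lemma cont_char (η : ℝ) : Continuous (fun t : ℝ => e (-(t * η))) :=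
  continuous_e.comp (by fun_prop)

lemma hasDerivAt_kap (y η : ℝ) : HasDerivAt (fun y => kap y η) (e (-(y * η))) y :=
  intervalIntegral.integral_hasDerivAt_right ((cont_char η).intervalIntegrable _ _)
    (cont_char η).stronglyMeasurable.stronglyMeasurableAtFilter (cont_char η).continuousAt

lemma continuous_kap (η : ℝ) : Continuous (fun y => kap y η) :=
  continuous_iff_continuousAt.2 fun y => (hasDerivAt_kap y η).continuousAt

lemma char_int (a b η : ℝ) (hη : η ≠ 0) :
    ∫ t in a..b, e (-(t * η)) = (e (-(a * η)) - e (-(b * η))) / ((2 * Real.pi * η : ℝ) * Complex.I) := by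
  have hc : (((2 * Real.pi * η : ℝ) : ℂ) * Complex.I) ≠ 0 := by
    refine mul_ne_zero ?_ Complex.I_ne_zero
    have : 2 * Real.pi * η ≠ 0 := by positivity
    exact_mod_cast this
  have hd : ∀ t ∈ uIcc a b, HasDerivAt
      (fun t : ℝ => -(e (-(t * η))) / (((2 * Real.pi * η : ℝ) : ℂ) * Complex.I))
      (e (-(t * η))) t := by
    intro t _
    have h1 : HasDerivAt (fun t : ℝ => (((2 * Real.pi * (-(t * η)) : ℝ) : ℂ) * Complex.I))
        (((-(2 * Real.pi * η) : ℝ) : ℂ) * Complex.I) t := by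
      refine HasDerivAt.mul_const (HasDerivAt.ofReal_comp ?_) _
      have := ((hasDerivAt_id t).mul_const η).neg.const_mul (2 * Real.pi)
      simpa using this
    have h2 := h1.cexp
    have h3 := (h2.neg).div_const (((2 * Real.pi * η : ℝ) : ℂ) * Complex.I)
    have h4 : (((-(2 * Real.pi * η) : ℝ) : ℂ) * Complex.I) =
        -(((2 * Real.pi * η : ℝ) : ℂ) * Complex.I) := by
      push_cast
      ring
    rw [h4, mul_neg, neg_neg, mul_div_assoc, div_self hc, mul_one] at h3
    exact h3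
  rw [intervalIntegral.integral_eq_sub_of_hasDerivAt hd ((cont_char η).intervalIntegrable _ _)]
  ring

lemma norm_char_int (a b η : ℝ) (hab : a ≤ b) :
    ‖∫ t in a..b, e (-(t * η))‖ₑ ≤ min (ENNReal.ofReal (b - a)) (ENNReal.ofReal |η|)⁻¹ := by
  refine le_min ?_ ?_
  · rw [← ofReal_norm]
    refine ENNReal.ofReal_le_ofReal ?_
    have := intervalIntegral.norm_integral_le_of_norm_le_const (a := a) (b := b) (C := 1)
      (f := fun t => e (-(t * η))) (fun t _ => (norm_e _).le)
    rwa [one_mul, abs_of_nonneg (by linarith)] at this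
  · by_cases hη : η = 0
    · rw [hη, abs_zero, ENNReal.ofReal_zero, ENNReal.inv_zero]
      exact le_top
    · have hη0 : 0 < |η| := abs_pos.2 hη
      rw [← ofReal_norm, ← ENNReal.ofReal_inv_of_pos hη0]
      refine ENNReal.ofReal_le_ofReal ?_
      rw [char_int a b η hη, norm_div, norm_mul, Complex.norm_I, mul_one, Complex.norm_real,
        Real.norm_eq_abs, abs_mul, abs_mul, abs_two, abs_of_pos Real.pi_pos, inv_eq_one_div,
        div_le_div_iff₀ (by positivity) hη0]
      have h1 : ‖e (-(a * η)) - e (-(b * η))‖ ≤ 2 := by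
        refine (norm_sub_le _ _).trans ?_
        rw [norm_e, norm_e]
        norm_num
      have h2 := Real.pi_gt_three
      nlinarith

lemma enorm_kap (y η : ℝ) : ‖kap y η‖ₑ ≤ Kr y η * ‖y‖ₑ := by
  by_cases hy0 : y = 0
  · rw [hy0]
    unfold kap
    simp
  have h1 : ‖kap y η‖ₑ ≤ min (ENNReal.ofReal |y|) (ENNReal.ofReal |η|)⁻¹ := by
    rcases le_total 0 y with h | h
    · have := norm_char_int 0 y η h
      rw [sub_zero] at this
      rw [abs_of_nonneg h]
      exact this
    · have := norm_char_int y 0 η h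
      rw [zero_sub] at this
      rw [abs_of_nonpos h]
      unfold kap
      rw [intervalIntegral.integral_symm, enorm_neg]
      exact this
  refine h1.trans ?_
  have hy : ‖y‖ₑ = ENNReal.ofReal |y| := by rw [← ofReal_norm, Real.norm_eq_abs]
  have hyp : 0 < |y| := abs_pos.2 hy0
  rw [hy]
  unfold Kr
  rw [min_mul]
  refine min_le_min ?_ ?_
  · rw [one_mul]
  · rw [ENNReal.ofReal_mul (abs_nonneg y), ENNReal.mul_inv (Or.inl (by simpa using hy0))
      (Or.inl ENNReal.ofReal_ne_top), mul_assoc, mul_comm (ENNReal.ofReal |η|)⁻¹, ← mul_assoc,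
      ENNReal.inv_mul_cancel (by simpa using hy0) ENNReal.ofReal_ne_top, one_mul]

section slices

variable {m : ℕ}

/-- the point with coordinates `y_0, …, y_{m-1}, x` -/
noncomputable def pt (v : OrthonormalBasis (Fin (m + 1)) ℝ (EuclideanSpace ℝ (Fin (m + 1))))
    (x : ℝ) (y : Fin m → ℝ) : EuclideanSpace ℝ (Fin (m + 1)) :=
  x • v (Fin.last m) + ∑ i : Fin m, y i • v i.castSucc

lemma pt_inner (v : OrthonormalBasis (Fin (m + 1)) ℝ (EuclideanSpace ℝ (Fin (m + 1))))
    (x : ℝ) (y : Fin m → ℝ) (i : Fin m) : (⟪v i.castSucc, pt v x y⟫ : ℝ) = y i := by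
  classical
  unfold pt
  rw [inner_add_right, inner_smul_right, inner_sum, v.inner_eq_ite, if_neg (by
    exact (Fin.castSucc_lt_last i).ne), mul_zero, zero_add, Finset.sum_eq_single i]
  · rw [inner_smul_right, v.inner_eq_ite, if_pos rfl, mul_one]
  · intro j _ hj
    rw [inner_smul_right, v.inner_eq_ite, if_neg, mul_zero]
    intro h
    exact hj (Fin.castSucc_injective _ h).symm
  · intro h
    exact absurd (Finset.mem_univ _) h

lemma norm_le_pt (v : OrthonormalBasis (Fin (m + 1)) ℝ (EuclideanSpace ℝ (Fin (m + 1))))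
    (x : ℝ) (y : Fin m → ℝ) : ‖y‖ ≤ ‖pt v x y‖ := by
  rw [pi_norm_le_iff_of_nonneg (norm_nonneg _)]
  intro i
  have h1 := norm_inner_le_norm (𝕜 := ℝ) (v i.castSucc) (pt v x y)
  rw [v.norm_eq_one, one_mul, pt_inner] at h1
  exact h1

lemma continuous_pt (v : OrthonormalBasis (Fin (m + 1)) ℝ (EuclideanSpace ℝ (Fin (m + 1))))
    (x : ℝ) : Continuous (pt v x) := by
  unfold pt
  fun_prop

/-- iterated derivatives along a list of directions -/
noncomputable def DL (f : 𝓢(EuclideanSpace ℝ (Fin (m + 1)), ℂ)) :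
    List (EuclideanSpace ℝ (Fin (m + 1))) → 𝓢(EuclideanSpace ℝ (Fin (m + 1)), ℂ)
  | [] => f
  | w :: l => ∂_{w} (DL f l)

lemma DL_ofFn (f : 𝓢(EuclideanSpace ℝ (Fin (m + 1)), ℂ)) {n : ℕ}
    (u : Fin n → EuclideanSpace ℝ (Fin (m + 1))) : DL f (List.ofFn u) = ∂^{u} f := by
  induction n with
  | zero => simp [DL]
  | succ n ih =>
    rw [List.ofFn_succ, iteratedLineDerivOp_succ_left]
    show ∂_{u 0} (DL f (List.ofFn fun i => u i.succ)) = _
    rw [ih]
    rfl

/-- the factor -/
noncomputable def PP (l : List (Fin m)) (η y : Fin m → ℝ) : ℂ :=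
  ∏ i, if i ∈ l then kap (y i) (η i) else e (-(y i * η i))

lemma norm_PP (l : List (Fin m)) (η y : Fin m → ℝ) : ‖PP l η y‖ ≤ (1 + ‖y‖) ^ m := by
  unfold PP
  rw [norm_prod]
  calc ∏ i, ‖(if i ∈ l then kap (y i) (η i) else e (-(y i * η i)) : ℂ)‖
      ≤ ∏ _i : Fin m, (1 + ‖y‖) := by
        refine Finset.prod_le_prod (fun i _ => norm_nonneg _) fun i _ => ?_
        split_ifs
        · have h1 : ‖kap (y i) (η i)‖ ≤ |y i| := by
            unfold kap
            have := intervalIntegral.norm_integral_le_of_norm_le_const (a := 0) (b := y i) (C := 1)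
              (f := fun t => e (-(t * η i))) (fun t _ => (norm_e _).le)
            rwa [one_mul, sub_zero] at this
          have h2 : |y i| ≤ ‖y‖ := norm_le_pi_norm y i
          linarith
        · rw [norm_e]
          have := norm_nonneg y
          linarith
    _ = (1 + ‖y‖) ^ m := by rw [Finset.prod_const, Finset.card_univ, Fintype.card_fin]

lemma continuous_PP (l : List (Fin m)) (η : Fin m → ℝ) : Continuous (PP l η) := by
  unfold PP
  refine continuous_finsetProd _ fun i _ => ?_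
  split_ifs
  · exact (continuous_kap (η i)).comp (continuous_apply i)
  · exact (cont_char (η i)).comp (continuous_apply i)

lemma deriv_PP (l : List (Fin m)) (j : Fin m) (hj : j ∉ l) (η y : Fin m → ℝ) :
    HasLineDerivAt ℝ (PP (j :: l) η) (PP l η y) y (Pi.single j 1) := by
  classical
  have hsplit : ∀ (l' : List (Fin m)) (z : Fin m → ℝ), PP l' η z =
      (if j ∈ l' then kap (z j) (η j) else e (-(z j * η j))) *
      ∏ i ∈ Finset.univ.erase j, (if i ∈ l' then kap (z i) (η i) else e (-(z i * η i))) := by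
    intro l' z
    unfold PP
    rw [Finset.mul_prod_erase Finset.univ
      (fun i => if i ∈ l' then kap (z i) (η i) else e (-(z i * η i))) (Finset.mem_univ j)]
  unfold HasLineDerivAt
  have h1 : (fun t : ℝ => PP (j :: l) η (y + t • Pi.single j 1)) = fun t =>
      kap (y j + t) (η j) * ∏ i ∈ Finset.univ.erase j,
        (if i ∈ l then kap (y i) (η i) else e (-(y i * η i))) := by
    funext t
    rw [hsplit]
    have e1 : (y + t • (Pi.single j 1 : Fin m → ℝ)) j = y j + t := by simp
    rw [if_pos (List.mem_cons_self ..), e1]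
    congr 1
    refine Finset.prod_congr rfl fun i hi => ?_
    have hij := Finset.ne_of_mem_erase hi
    have e2 : (y + t • (Pi.single j 1 : Fin m → ℝ)) i = y i := by simp [Pi.single_eq_of_ne hij]
    rw [e2]
    have e3 : i ∈ j :: l ↔ i ∈ l := by
      rw [List.mem_cons]
      exact ⟨fun h => h.resolve_left hij, Or.inr⟩
    simp only [e3]
  rw [h1, hsplit l y, if_neg hj]
  refine HasDerivAt.mul_const ?_ _
  have h2 := hasDerivAt_kap (y j + 0) (η j)
  rw [add_zero] at h2
  have h3 : HasDerivAt (fun t : ℝ => y j + t) 1 0 := by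
    simpa using (hasDerivAt_id (0 : ℝ)).const_add (y j)
  have h4 := HasDerivAt.scomp (0 : ℝ) (h := fun t : ℝ => y j + t) (g₁ := fun y => kap y (η j))
    (by simpa using h2) h3
  rw [one_smul] at h4
  exact h4

lemma int_slice (v : OrthonormalBasis (Fin (m + 1)) ℝ (EuclideanSpace ℝ (Fin (m + 1))))
    (f : 𝓢(EuclideanSpace ℝ (Fin (m + 1)), ℂ)) (x : ℝ) {P : (Fin m → ℝ) → ℂ}
    (hP : Continuous P) (hb : ∀ y, ‖P y‖ ≤ (1 + ‖y‖) ^ m) :
    Integrable (fun y : Fin m → ℝ => P y * f (pt v x y)) := by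
  obtain ⟨C, hC⟩ : ∃ C : ℝ, ∀ z, (1 + ‖z‖) ^ (2 * m + 1) * ‖f z‖ ≤ C := by
    refine ⟨2 ^ (2 * m + 1) * (Finset.Iic (2 * m + 1, 0)).sup
      (fun m => SchwartzMap.seminorm ℝ m.1 m.2) f, fun z => ?_⟩
    have := SchwartzMap.one_add_le_sup_seminorm_apply (𝕜 := ℝ) (m := (2 * m + 1, 0))
      (k := 2 * m + 1) (n := 0) le_rfl le_rfl f z
    rw [norm_iteratedFDeriv_zero] at this
    exact this
  have hI : Integrable (fun y : Fin m → ℝ => (1 + ‖y‖) ^ (-((m + 1 : ℕ) : ℝ))) := by
    apply integrable_one_add_norm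
    simp
  refine Integrable.mono' (hI.const_mul C)
    (hP.mul (f.continuous.comp (continuous_pt v x))).aestronglyMeasurable
    (Filter.Eventually.of_forall fun y => ?_)
  rw [norm_mul]
  have h1 := hC (pt v x y)
  have h2 := norm_le_pt v x y
  have h3 : 0 < 1 + ‖y‖ := by have := norm_nonneg y; linarith
  have h4 : (1 + ‖y‖) ^ (2 * m + 1) * ‖f (pt v x y)‖ ≤ C :=
    (mul_le_mul_of_nonneg_right (pow_le_pow_left₀ h3.le (by linarith) _) (norm_nonneg _)).trans h1
  rw [Real.rpow_neg h3.le, Real.rpow_natCast, ← div_eq_mul_inv, le_div_iff₀ (by positivity)]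
  calc ‖P y‖ * ‖f (pt v x y)‖ * (1 + ‖y‖) ^ (m + 1)
      ≤ (1 + ‖y‖) ^ m * ‖f (pt v x y)‖ * (1 + ‖y‖) ^ (m + 1) := by
        gcongr
        exact hb y
    _ = (1 + ‖y‖) ^ (2 * m + 1) * ‖f (pt v x y)‖ := by ring
    _ ≤ C := h4

lemma deriv_slice (v : OrthonormalBasis (Fin (m + 1)) ℝ (EuclideanSpace ℝ (Fin (m + 1))))
    (f : 𝓢(EuclideanSpace ℝ (Fin (m + 1)), ℂ)) (x : ℝ) (j : Fin m) (y : Fin m → ℝ) :
    HasLineDerivAt ℝ (fun y => f (pt v x y)) ((∂_{v j.castSucc} f :
      𝓢(EuclideanSpace ℝ (Fin (m + 1)), ℂ)) (pt v x y)) y (Pi.single j 1) := by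
  have h1 : HasLineDerivAt ℝ f ((∂_{v j.castSucc} f :
      𝓢(EuclideanSpace ℝ (Fin (m + 1)), ℂ)) (pt v x y)) (pt v x y) (v j.castSucc) := by
    rw [SchwartzMap.lineDerivOp_apply_eq_fderiv]
    exact (f.differentiableAt).hasFDerivAt.hasLineDerivAt _
  unfold HasLineDerivAt at h1 ⊢
  have h2 : (fun t : ℝ => f (pt v x (y + t • Pi.single j 1))) =
      fun t : ℝ => f (pt v x y + t • v j.castSucc) := by
    funext t
    congr 1
    unfold pt
    rw [add_assoc]
    congr 1
    have h3 : ∀ i : Fin m, (y + t • (Pi.single j 1 : Fin m → ℝ)) i • v i.castSucc =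
        y i • v i.castSucc + (if i = j then t • v j.castSucc else 0) := by
      intro i
      by_cases h : i = j
      · subst h
        simp [add_smul]
      · simp [h]
    simp only [h3]
    rw [Finset.sum_add_distrib, Finset.sum_ite_eq' Finset.univ j, if_pos (Finset.mem_univ _)]
  rw [h2]
  exact h1

/-- repeated integration by parts -/
theorem ftm_parts (v : OrthonormalBasis (Fin (m + 1)) ℝ (EuclideanSpace ℝ (Fin (m + 1))))
    (f : 𝓢(EuclideanSpace ℝ (Fin (m + 1)), ℂ)) (x : ℝ) (η : Fin m → ℝ) (l : List (Fin m))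
    (hl : l.Nodup) : ftm m (fun y => f (pt v x y)) η = (-1) ^ l.length *
      ∫ y : Fin m → ℝ, PP l η y * DL f (l.map fun i => v i.castSucc) (pt v x y) := by
  induction l with
  | nil =>
    simp only [List.length_nil, pow_zero, one_mul, List.map_nil, DL]
    unfold ftm PP
    refine integral_congr_ae (Filter.Eventually.of_forall fun y => ?_)
    simp only [List.not_mem_nil, if_false]
    congr 1
    unfold e
    rw [← Complex.exp_sum, ← Finset.sum_mul, ← Complex.ofReal_sum, ← Finset.mul_sum,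
      Finset.sum_neg_distrib]
  | cons j l ih =>
    rw [List.nodup_cons] at hl
    rw [ih hl.2, List.length_cons, pow_succ, mul_assoc]
    congr 1
    rw [neg_one_mul, List.map_cons]
    have key := integral_bilinear_hasLineDerivAt_right_eq_neg_left_of_integrable
      (μ := (volume : Measure (Fin m → ℝ))) (f := PP (j :: l) η) (f' := PP l η)
      (g := fun y => DL f (l.map fun i => v i.castSucc) (pt v x y))
      (g' := fun y => (∂_{v j.castSucc} (DL f (l.map fun i => v i.castSucc)) :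
        𝓢(EuclideanSpace ℝ (Fin (m + 1)), ℂ)) (pt v x y))
      (v := Pi.single j 1) (B := ContinuousLinearMap.mul ℝ ℂ)
      (int_slice v _ x (continuous_PP _ _) (norm_PP _ _))
      (int_slice v _ x (continuous_PP _ _) (norm_PP _ _))
      (int_slice v _ x (continuous_PP _ _) (norm_PP _ _))
      (fun y _ => deriv_PP l j hl.1 η y) (fun y _ => deriv_slice v _ x j y)
    simp only [ContinuousLinearMap.mul_apply'] at key
    rw [eq_neg_iff_add_eq_zero, add_comm, ← eq_neg_iff_add_eq_zero] at key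
    exact key

/-- the mixed derivative -/
theorem ftm_bound (v : OrthonormalBasis (Fin (m + 1)) ℝ (EuclideanSpace ℝ (Fin (m + 1))))
    (f : 𝓢(EuclideanSpace ℝ (Fin (m + 1)), ℂ)) (x : ℝ) (η : Fin m → ℝ) :
    ‖ftm m (fun y => f (pt v x y)) η‖ₑ ≤ ∫⁻ y : Fin m → ℝ, (∏ i, Kr (y i) (η i)) *
      ((∏ i, ‖y i‖ₑ) * ‖(∂^{fun i : Fin m => v i.castSucc} f :
        𝓢(EuclideanSpace ℝ (Fin (m + 1)), ℂ)) (pt v x y)‖ₑ) := by
  rw [ftm_parts v f x η (List.finRange m) (List.nodup_finRange m), enorm_mul]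
  have h1 : ‖((-1 : ℂ)) ^ (List.finRange m).length‖ₑ = 1 := by
    rw [← ofReal_norm, norm_pow, norm_neg, norm_one, one_pow, ENNReal.ofReal_one]
  rw [h1, one_mul]
  refine (enorm_integral_le_lintegral_enorm _).trans (lintegral_mono fun y => ?_)
  have h2 : (List.finRange m).map (fun i => v i.castSucc) =
      List.ofFn (fun i : Fin m => v i.castSucc) := by
    rw [List.ofFn_eq_map]
  rw [h2, DL_ofFn, enorm_mul, ← mul_assoc, ← Finset.prod_mul_distrib]
  refine mul_le_mul_left ?_ _
  unfold PP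
  have h3 : ∀ z : Fin m → ℂ, ‖∏ i, z i‖ₑ = ∏ i, ‖z i‖ₑ := by
    intro z
    simp only [← ofReal_norm]
    rw [norm_prod, ENNReal.ofReal_prod_of_nonneg fun i _ => norm_nonneg _]
  rw [h3]
  refine Finset.prod_le_prod' fun i _ => ?_
  rw [if_pos (List.mem_finRange i)]
  exact enorm_kap _ _

end slices

end Pool.Agent.T9h44.LS2
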