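import Pool.Agent.T9h44.LS2.H2

set_option autoImplicit false

/-!
# Mixtures of boxes with a common point
-/

namespace Pool.Agent.T9h44.LS2

open MeasureTheory Set
open scoped ENNReal
open Pool.Agent.TH280.LS Pool.Agent.TH89.F Pool.Agent.TH807.CL

/-- `g` is a mixture of indicator functions of boxes which have a point in common. -/
def Boxes (m : ℕ) (g : (Fin m → ℝ) → ℝ≥0∞) : Prop :=
  ∃ (Ω : Type) (_ : MeasurableSpace Ω) (μ : Measure Ω) (_ : SFinite μ) (a b : Ω → Fin m → ℝ)
    (c : Fin m → ℝ), Measurable a ∧ Measurable b ∧ (∀ ω i, a ω i ≤ c i ∧ c i ≤ b ω i) ∧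
    ∀ y, g y = μ {ω | ∀ i, a ω i ≤ y i ∧ y i ≤ b ω i}

lemma low (a b c η : ℝ) (h1 : a ≤ c) (h2 : c ≤ b) :
    min (ENNReal.ofReal (b - a)) (ENNReal.ofReal |η|)⁻¹ ≤ ∫⁻ t in Icc a b, Kr (t - c) η := by
  by_cases hη : η = 0
  · refine (min_le_left _ _).trans (le_of_eq ?_)
    have h3 : ∀ t, Kr (t - c) η = 1 := by
      intro t
      unfold Kr
      rw [hη, abs_zero, mul_zero, ENNReal.ofReal_zero, ENNReal.inv_zero]
      exact min_eq_left le_top
    simp only [h3]
    rw [lintegral_one, Measure.restrict_apply_univ, Real.volume_Icc]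
  · have hη0 : 0 < |η| := abs_pos.2 hη
    obtain ⟨V, hV⟩ : ∃ V, V = 1 / |η| := ⟨_, rfl⟩
    have hV0 : 0 < V := by rw [hV]; positivity
    have h4 : ∀ t ∈ Icc (max a (c - V)) (min b (c + V)), (1 : ℝ≥0∞) ≤ Kr (t - c) η := by
      rintro t ⟨ht1, ht2⟩
      have e1 : c - V ≤ t := (le_max_right _ _).trans ht1
      have e2 : t ≤ c + V := ht2.trans (min_le_right _ _)
      unfold Kr
      refine le_min le_rfl ?_
      rw [ENNReal.one_le_inv]
      rw [← ENNReal.ofReal_one]
      refine ENNReal.ofReal_le_ofReal ?_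
      have e3 : |t - c| ≤ V := abs_le.2 ⟨by linarith, by linarith⟩
      calc |t - c| * |η| ≤ V * |η| := mul_le_mul_of_nonneg_right e3 hη0.le
        _ = 1 := by rw [hV]; field_simp
    have h5 : Icc (max a (c - V)) (min b (c + V)) ⊆ Icc a b :=
      Icc_subset_Icc (le_max_left _ _) (min_le_left _ _)
    calc min (ENNReal.ofReal (b - a)) (ENNReal.ofReal |η|)⁻¹
        ≤ ENNReal.ofReal (min b (c + V) - max a (c - V)) := by
          rw [← ENNReal.ofReal_inv_of_pos hη0, ← ENNReal.ofReal_min]
          refine ENNReal.ofReal_le_ofReal ?_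
          rw [inv_eq_one_div, ← hV]
          rcases le_total b (c + V) with e1 | e1 <;> rcases le_total a (c - V) with e2 | e2
          · rw [min_eq_left e1, max_eq_right e2]
            exact (min_le_right _ _).trans (by linarith)
          · rw [min_eq_left e1, max_eq_left e2]
            exact min_le_left _ _
          · rw [min_eq_right e1, max_eq_right e2]
            exact (min_le_right _ _).trans (by linarith)
          · rw [min_eq_right e1, max_eq_left e2]
            exact (min_le_right _ _).trans (by linarith)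
      _ = ∫⁻ t in Icc (max a (c - V)) (min b (c + V)), 1 := by
          rw [lintegral_one, Measure.restrict_apply_univ, Real.volume_Icc]
      _ ≤ ∫⁻ t in Icc (max a (c - V)) (min b (c + V)), Kr (t - c) η :=
          setLIntegral_mono' measurableSet_Icc h4
      _ ≤ _ := lintegral_mono_set h5

section mix

variable {m : ℕ} {Ω : Type} [MeasurableSpace Ω]

/-- the region -/
def Reg (a b : Ω → Fin m → ℝ) : Set (Ω × (Fin m → ℝ)) :=
  {z | ∀ i, a z.1 i ≤ z.2 i ∧ z.2 i ≤ b z.1 i}

lemma measurableSet_Reg {a b : Ω → Fin m → ℝ} (ha : Measurable a) (hb : Measurable b) :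
    MeasurableSet (Reg a b) := by
  have h : Reg a b = ⋂ i, ({z | a z.1 i ≤ z.2 i} ∩ {z | z.2 i ≤ b z.1 i}) := by
    ext z
    simp only [Reg, Set.mem_ofPred_eq, mem_iInter, mem_inter_iff]
  rw [h]
  refine MeasurableSet.iInter fun i => MeasurableSet.inter ?_ ?_
  · exact measurableSet_le (((measurable_pi_apply i).comp ha).comp measurable_fst)
      ((measurable_pi_apply i).comp measurable_snd)
  · exact measurableSet_le ((measurable_pi_apply i).comp measurable_snd)
      (((measurable_pi_apply i).comp hb).comp measurable_fst)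

lemma measurable_chm (η : Fin m → ℝ) : Measurable (fun y : Fin m → ℝ => e (-(∑ i, y i * η i))) :=
  measurable_e.comp (Measurable.neg (by fun_prop))

theorem mix_bound (μ : Measure Ω) [SFinite μ] {a b : Ω → Fin m → ℝ} (ha : Measurable a)
    (hb : Measurable b) (c : Fin m → ℝ) (hc : ∀ ω i, a ω i ≤ c i ∧ c i ≤ b ω i)
    (hfin : ∫⁻ y : Fin m → ℝ, μ {ω | ∀ i, a ω i ≤ y i ∧ y i ≤ b ω i} ≠ ∞) (η : Fin m → ℝ) :
    ‖ftm m (fun y => (((μ {ω | ∀ i, a ω i ≤ y i ∧ y i ≤ b ω i}).toReal : ℝ) : ℂ)) η‖ₑ ≤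
      ∫⁻ y : Fin m → ℝ, (∏ i, Kr (y i - c i) (η i)) * μ {ω | ∀ i, a ω i ≤ y i ∧ y i ≤ b ω i} := by
  classical
  have hR := measurableSet_Reg ha hb
  have hRfin : (μ.prod (volume : Measure (Fin m → ℝ))) (Reg a b) ≠ ∞ := by
    rw [Measure.prod_apply_symm hR]
    exact hfin
  have hslice : ∀ y : Fin m → ℝ, MeasurableSet {ω | ∀ i, a ω i ≤ y i ∧ y i ≤ b ω i} := fun y =>
    (measurable_prodMk_right (y := y)) hR
  -- the integrand on the product
  obtain ⟨F, hF⟩ : ∃ F : Ω × (Fin m → ℝ) → ℂ, F = (Reg a b).indicator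
      fun z => e (-(∑ i, z.2 i * η i)) := ⟨_, rfl⟩
  have hFm : Measurable F := by
    rw [hF]
    exact ((measurable_chm η).comp measurable_snd).indicator hR
  have hFi : Integrable F (μ.prod volume) := by
    have h1 : Integrable ((Reg a b).indicator fun _ => (1 : ℝ)) (μ.prod
        (volume : Measure (Fin m → ℝ))) := by
      rw [integrable_indicator_iff hR]
      exact integrableOn_const hRfin
    refine h1.mono' hFm.aestronglyMeasurable (Filter.Eventually.of_forall fun z => ?_)
    rw [hF]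
    by_cases hz : z ∈ Reg a b
    · rw [indicator_of_mem hz, indicator_of_mem hz, norm_e]
    · rw [indicator_of_notMem hz, indicator_of_notMem hz, norm_zero]
  have e1 : ftm m (fun y => (((μ {ω | ∀ i, a ω i ≤ y i ∧ y i ≤ b ω i}).toReal : ℝ) : ℂ)) η =
      ∫ y : Fin m → ℝ, ∫ ω, F (ω, y) ∂μ := by
    unfold ftm
    refine integral_congr_ae (Filter.Eventually.of_forall fun y => ?_)
    simp only
    have h1 : (fun ω => F (ω, y)) = ({ω | ∀ i, a ω i ≤ y i ∧ y i ≤ b ω i}).indicator
        fun _ => e (-(∑ i, y i * η i)) := by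
      funext ω
      rw [hF]
      by_cases hz : (ω, y) ∈ Reg a b
      · rw [indicator_of_mem hz, indicator_of_mem (show ω ∈ _ from hz)]
      · rw [indicator_of_notMem hz, indicator_of_notMem (show ω ∉ _ from hz)]
    rw [h1, integral_indicator_const _ (hslice y), mul_comm]
    rfl
  have e2 : ∀ ω, ‖∫ y : Fin m → ℝ, F (ω, y)‖ₑ ≤
      ∫⁻ y : Fin m → ℝ, (Reg a b).indicator (fun z => ∏ i, Kr (z.2 i - c i) (η i)) (ω, y) := by
    intro ω
    have h1 : (fun y : Fin m → ℝ => F (ω, y)) = fun y => ∏ i, (Icc (a ω i) (b ω i)).indicator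
        (fun t => e (-(t * η i))) (y i) := by
      funext y
      rw [hF]
      by_cases hz : (ω, y) ∈ Reg a b
      · rw [indicator_of_mem hz]
        have h2 : ∀ i, (Icc (a ω i) (b ω i)).indicator (fun t => e (-(t * η i))) (y i) =
            e (-(y i * η i)) := fun i =>
          indicator_of_mem (show y i ∈ Icc (a ω i) (b ω i) from hz i) _
        simp only [h2]
        unfold e
        rw [← Complex.exp_sum, ← Finset.sum_mul, ← Complex.ofReal_sum, ← Finset.mul_sum,
          Finset.sum_neg_distrib]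
      · rw [indicator_of_notMem hz]
        have h2 : ∃ i, y i ∉ Icc (a ω i) (b ω i) := by
          by_contra hcon
          push Not at hcon
          exact hz hcon
        obtain ⟨i, hi⟩ := h2
        symm
        exact Finset.prod_eq_zero (Finset.mem_univ i) (indicator_of_notMem hi _)
    rw [h1, integral_fintype_prod_volume_eq_prod
      (fun i => (Icc (a ω i) (b ω i)).indicator (fun t => e (-(t * η i))))]
    have h3 : ∀ z : Fin m → ℂ, ‖∏ i, z i‖ₑ = ∏ i, ‖z i‖ₑ := by
      intro z
      simp only [← ofReal_norm]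
      rw [norm_prod, ENNReal.ofReal_prod_of_nonneg fun i _ => norm_nonneg _]
    rw [h3]
    have h4 : ∫⁻ y : Fin m → ℝ, (Reg a b).indicator (fun z => ∏ i, Kr (z.2 i - c i) (η i)) (ω, y) =
        ∏ i, ∫⁻ t in Icc (a ω i) (b ω i), Kr (t - c i) (η i) := by
      have h5 : ∀ i, Measurable ((Icc (a ω i) (b ω i)).indicator fun t => Kr (t - c i) (η i)) :=
        fun i => ((measurable_Kr' _).comp (measurable_id.sub_const _)).indicator measurableSet_Icc
      simp only [← lintegral_indicator measurableSet_Icc]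
      rw [← lint_prod _ fun i => (h5 i).aemeasurable]
      refine lintegral_congr fun y => ?_
      by_cases hz : (ω, y) ∈ Reg a b
      · rw [indicator_of_mem hz]
        refine Finset.prod_congr rfl fun i _ => ?_
        exact (indicator_of_mem (show y i ∈ Icc (a ω i) (b ω i) from hz i)
          (fun t => Kr (t - c i) (η i))).symm
      · rw [indicator_of_notMem hz]
        have h2 : ∃ i, y i ∉ Icc (a ω i) (b ω i) := by
          by_contra hcon
          push Not at hcon
          exact hz hcon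
        obtain ⟨i, hi⟩ := h2
        symm
        exact Finset.prod_eq_zero (Finset.mem_univ i) (indicator_of_notMem hi _)
    rw [h4]
    refine Finset.prod_le_prod' fun i _ => ?_
    obtain ⟨hc1, hc2⟩ := hc ω i
    refine le_trans ?_ (low (a ω i) (b ω i) (c i) (η i) hc1 hc2)
    rw [integral_indicator measurableSet_Icc, integral_Icc_eq_integral_Ioc,
      ← intervalIntegral.integral_of_le (hc1.trans hc2)]
    exact norm_char_int _ _ _ (hc1.trans hc2)
  have hKm : Measurable (fun z : Ω × (Fin m → ℝ) => ∏ i, Kr (z.2 i - c i) (η i)) := by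
    refine Finset.measurable_fun_prod _ fun i _ => ?_
    exact (measurable_Kr' (η i)).comp (f := fun z : Ω × (Fin m → ℝ) => z.2 i - c i) (by fun_prop)
  rw [e1, integral_integral_swap (f := fun y ω => F (ω, y)) hFi.swap]
  refine (enorm_integral_le_lintegral_enorm _).trans ((lintegral_mono e2).trans (le_of_eq ?_))
  rw [lintegral_lintegral_swap]
  · refine lintegral_congr fun y => ?_
    have h1 : (fun ω => (Reg a b).indicator (fun z => ∏ i, Kr (z.2 i - c i) (η i)) (ω, y)) =
        ({ω | ∀ i, a ω i ≤ y i ∧ y i ≤ b ω i}).indicator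
        fun _ => ∏ i, Kr (y i - c i) (η i) := by
      funext ω
      by_cases hz : (ω, y) ∈ Reg a b
      · rw [indicator_of_mem hz, indicator_of_mem (show ω ∈ _ from hz)]
      · rw [indicator_of_notMem hz, indicator_of_notMem (show ω ∉ _ from hz)]
    rw [h1, lintegral_indicator_const (hslice y)]
  · exact (hKm.indicator hR).aemeasurable

/-- the reverse of Paley's inequality for mixtures of boxes with a common point -/
theorem boxes_paley (m : ℕ) (p : ℝ) (hp : 2 ≤ p) : ∃ C : ℝ, 0 < C ∧
    ∀ g : (Fin m → ℝ) → ℝ≥0∞, Boxes m g → ∫⁻ y, g y ≠ ∞ →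
    ∫⁻ η : Fin m → ℝ, ENNReal.ofReal ((∏ i, |η i|) ^ (p - 2)) *
      ‖ftm m (fun y => (((g y).toReal : ℝ) : ℂ)) η‖ₑ ^ p ≤
      ENNReal.ofReal C * ∫⁻ y : Fin m → ℝ, g y ^ p := by
  obtain ⟨C, hC, h⟩ := hardy_m m p hp
  refine ⟨C, hC, ?_⟩
  rintro g ⟨Ω, _, μ, _, a, b, c, ha, hb, hc, hg⟩ hfin
  have hgm : Measurable g := by
    have h1 : g = fun y => μ ((fun ω => (ω, y)) ⁻¹' Reg a b) := by
      funext y
      rw [hg y]
      rfl
    rw [h1]
    exact measurable_measure_prodMk_right (measurableSet_Reg ha hb)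
  have hgeq : g = fun y => μ {ω | ∀ i, a ω i ≤ y i ∧ y i ≤ b ω i} := funext hg
  have h1 : ∀ η : Fin m → ℝ, ‖ftm m (fun y => (((g y).toReal : ℝ) : ℂ)) η‖ₑ ≤
      ∫⁻ y : Fin m → ℝ, (∏ i, Kr (y i) (η i)) * g (y + c) := by
    intro η
    have h2 := mix_bound μ ha hb c hc (by rw [← hgeq]; exact hfin) η
    simp only [← hg] at h2
    rw [← lintegral_add_right_eq_self (fun y : Fin m → ℝ =>
      (∏ i, Kr (y i - c i) (η i)) * g y) c] at h2
    simpa only [Pi.add_apply, add_sub_cancel_right] using h2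
  have h2 := h (fun y => g (y + c)) (hgm.comp (measurable_id.add_const c)).aemeasurable
  refine (lintegral_mono fun η => mul_le_mul_right (ENNReal.rpow_le_rpow (h1 η) (by linarith))
    _).trans (h2.trans (le_of_eq ?_))
  congr 1
  exact lintegral_add_right_eq_self (fun y => g y ^ p) c

end mix

end Pool.Agent.T9h44.LS2
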