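import Pool.Agent.T9h44.LS2.H3

set_option autoImplicit false

/-!
# From the slices to the solution
-/

namespace Pool.Agent.T9h44.LS2

open MeasureTheory Set Filter
open scoped ENNReal FourierTransform RealInnerProductSpace Topology
open Pool.Agent.TH280.LS

variable {m : ℕ}

lemma pt_symm (v : OrthonormalBasis (Fin (m + 1)) ℝ (EuclideanSpace ℝ (Fin (m + 1))))
    (x : ℝ) (y : Fin m → ℝ) : v.repr.symm ((Zc m).symm (x, y)) = pt v x y := by
  have h4 : Zc m ((Zc m).symm (x, y)) = (x, y) := MeasurableEquiv.apply_symm_apply _ _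
  rw [Zc_apply] at h4
  have h5 : ((Zc m).symm (x, y)) (Fin.last m) = x := congrArg Prod.fst h4
  have h6 : ∀ i : Fin m, ((Zc m).symm (x, y)) i.castSucc = y i :=
    fun i => congrFun (congrArg Prod.snd h4) i
  rw [← v.sum_repr_symm, Fin.sum_univ_castSucc, h5]
  unfold pt
  rw [add_comm (x • v (Fin.last m))]
  congr 1
  exact Finset.sum_congr rfl fun i _ => by rw [h6]

/-- integration in the coordinates `x, y` -/
lemma lint_pt (v : OrthonormalBasis (Fin (m + 1)) ℝ (EuclideanSpace ℝ (Fin (m + 1))))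
    (F : EuclideanSpace ℝ (Fin (m + 1)) → ℝ≥0∞) (hF : AEMeasurable F) :
    ∫⁻ x : ℝ, ∫⁻ y : Fin m → ℝ, F (pt v x y) = ∫⁻ z, F z := by
  have h1 : ∫⁻ z, F z = ∫⁻ z, F (v.repr.symm z) :=
    (lint_rot m F v.repr.symm).symm
  have hF2 : AEMeasurable fun z => F (v.repr.symm z) :=
    hF.comp_quasiMeasurePreserving v.repr.symm.measurePreserving.quasiMeasurePreserving
  have hF3 : AEMeasurable fun q : ℝ × (Fin m → ℝ) => F (v.repr.symm ((Zc m).symm q)) :=
    hF2.comp_quasiMeasurePreserving ((Zc_mp m).symm _).quasiMeasurePreserving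
  have h2 := ((Zc_mp m).symm _).lintegral_comp_emb (Zc m).symm.measurableEmbedding
    (fun z => F (v.repr.symm z))
  rw [h1, ← h2, Measure.volume_eq_prod, lintegral_prod _ hF3]
  simp only [pt_symm]

/-- the estimate for one datum, from the slices -/
theorem one_slices (hTP : S_TP) (m : ℕ) (s p : ℝ) (hm : 0 < m) (hs : 0 < s)
    (hp2 : 2 ≤ p) (hp4 : p ≤ 4) : ∃ C : ℝ, 0 < C ∧
    ∀ (f : EuclideanSpace ℝ (Fin (m + 1)) → ℂ) (v : OrthonormalBasis (Fin (m + 1)) ℝ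
      (EuclideanSpace ℝ (Fin (m + 1)))) (N : ℝ → ℝ≥0∞), Integrable f →
    (∀ᵐ x : ℝ, ∫⁻ η : Fin m → ℝ, ENNReal.ofReal ((∏ i, |η i|) ^ (p - 2)) *
      ‖ftm m (fun y => f (pt v x y)) η‖ₑ ^ p ≤ N x) →
    ∀ τ : ℝ, 0 < τ → τ ≤ 1 →
    (∫⁻ t in Icc (1 : ℝ) 2, ∫⁻ z, ‖RM m (mc s τ t) f z‖ₑ ^ p ≤
      ENNReal.ofReal C * ∫⁻ x, N x) ∧
    (∫⁻ t in Icc (1 : ℝ) 2, ∫⁻ z, ‖RM m (ms s τ t) f z‖ₑ ^ p ≤
      ENNReal.ofReal C * ∫⁻ x, N x) := by
  obtain ⟨C1, hC1, h1⟩ := hTP m s p hm hs hp2 hp4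
  refine ⟨C1, hC1, ?_⟩
  intro f v N hf hN τ hτ hτ1
  -- rotate
  set L := v.repr with hL
  set f' : EuclideanSpace ℝ (Fin (m + 1)) → ℂ := fun z => f (L.symm z) with hf'
  have hff : f = fun z => f' (L z) := by
    funext z
    simp only [hf', LinearIsometryEquiv.symm_apply_apply]
  have hf'i : Integrable f' := L.symm.measurePreserving.integrable_comp_of_integrable hf
  -- coordinates
  set g : ℝ × (Fin m → ℝ) → ℂ := fun q => f' ((Zc m).symm q) with hg
  have hgi : Integrable g := ((Zc_mp m).symm _).integrable_comp_of_integrable hf'i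
  have hgf : (fun z => g (Zc m z)) = f' := by
    funext z
    simp only [hg, MeasurableEquiv.symm_apply_apply]
  have hge : ∀ x y, g (x, y) = f (pt v x y) := by
    intro x y
    simp only [hg, hf', hL, pt_symm]
  -- measurable modification
  obtain ⟨g0, hg0m, hg0e⟩ : ∃ g0 : ℝ × (Fin m → ℝ) → ℂ, Measurable g0 ∧ g =ᵐ[volume] g0 :=
    ⟨hgi.1.mk g, hgi.1.stronglyMeasurable_mk.measurable, hgi.1.ae_eq_mk⟩
  have hg0i : Integrable g0 := hgi.congr hg0e
  have hcong : (fun z => g (Zc m z)) =ᵐ[volume] fun z => g0 (Zc m z) :=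
    (Zc_mp m).quasiMeasurePreserving.ae_eq_comp hg0e
  have hRM : ∀ M : ℝ → ℝ, ∀ z, RM m M f z = RM m M (fun z => g0 (Zc m z)) (L z) := by
    intro M z
    rw [← RM_congr m M hcong, hgf]
    conv_lhs => rw [hff]
    rw [RM_rot]
  have hR : ∫⁻ x : ℝ, ∫⁻ η : Fin m → ℝ,
      ENNReal.ofReal ((∏ i, |η i|) ^ (p - 2)) * ‖GG m g0 η x‖ₑ ^ p ≤ ∫⁻ x, N x := by
    have h2 : ∀ᵐ x : ℝ, ∀ᵐ y : Fin m → ℝ, g (x, y) = g0 (x, y) :=
      Measure.ae_ae_of_ae_prod hg0e
    refine lintegral_mono_ae ?_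
    filter_upwards [h2, hN] with x hx1 hx2
    have h3 : ∀ η, GG m g0 η x = ftm m (fun y => f (pt v x y)) η := by
      intro η
      unfold GG ftm
      refine integral_congr_ae ?_
      filter_upwards [hx1] with y hy
      rw [← hge x y, hy]
    simp only [h3]
    exact hx2
  have hLi : ∀ (M : ℝ → ℝ), ∫⁻ z, ‖RM m M f z‖ₑ ^ p =
      ∫⁻ z, ‖RM m M (fun z => g0 (Zc m z)) z‖ₑ ^ p := by
    intro M
    simp only [hRM M]
    exact lint_rot m (fun z => ‖RM m M (fun z => g0 (Zc m z)) z‖ₑ ^ p) L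
  have hTPg := h1 τ (GG m g0) hτ hτ1 (GG_adm m hg0i hg0m)
  constructor
  · refine (le_of_eq ?_).trans (hTPg.1.trans (mul_le_mul_right hR _))
    refine setLIntegral_congr_fun measurableSet_Icc fun t ht => ?_
    rw [hLi, RM_lint m (mc s τ t) (measurable_mc s τ t) hτ (fun r _ => mc_le s τ t r hs) hg0i]
  · refine (le_of_eq ?_).trans (hTPg.2.trans (mul_le_mul_right hR _))
    refine setLIntegral_congr_fun measurableSet_Icc fun t ht => ?_
    have ht2 : |t| ≤ 2 := by rw [abs_of_nonneg (by linarith [ht.1])]; exact ht.2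
    rw [hLi, RM_lint m (ms s τ t) (measurable_ms s τ t) hτ
      (fun r hr => ms_le s τ t r hs ht2 hr) hg0i]

end Pool.Agent.T9h44.LS2
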